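import Pool.Agent.X39.Near.MasterI
import Pool.Agent.X255.RH.Wei

/-!
# Logarithms and elliptic logarithms of ALL algebraic numbers close to any number outside a set of dimension zero

Let `L` be a lattice, `c_1, …, c_r` distinct complex numbers, and let, on a connected open set `V`, `p` be a branch of the
inverse of `℘` (an elliptic logarithm: `℘ (p (x)) = x`) and `l_j` a branch of `log (x - c_j)`. If `g₂`, `g₃`, the `c_j` and
`x` are algebraic, then `p (x)` is the elliptic logarithm of an algebraic point and the `l_j (x)` are logarithms of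
algebraic numbers. Outside ONE set of complex numbers `x` of Hausdorff dimension `0`, for all number fields `F ⊂ ℂ`, all
`ω > 0`, `d` and `A` there are `B` and `T₁` such that for all `T ≥ T₁` and ALL `t ∈ F` of height at most `T` with
`|t - x| ≤ T ^ (-ω)` the numbers `p (t)`, `ζ (p (t))`, `l_j (t)` satisfy no relation of degree at most `d` with
coefficients which are polynomials of degree at most `d` in the `u_k(t) / w(t)` and in given complex numbers `ξ_i`
(for instance `g₂`, `g₃`, `π`, the periods and quasi-periods: all branches at once), with coefficients in `F` of height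
at most `T ^ A`, not even up to `T ^ (-B)`. In particular this holds at the convergents of all irrational real numbers in
`V` outside this set, from some point on.
-/

set_option autoImplicit false

open MeasureTheory NumberField

namespace Pool.Agent.Results.MP_c9768e_nt.ApproximationsOfAllNumbers

open Pool.Agent.X39.Near (Size Dependent)

/-- The Weierstrass zeta function `ζ(z) = ∑ (1/(z-l) + 1/l + z/l²)`, the sum over the lattice (the summand of `l = 0` is
`1/z`, since `1/0 = 0` in Lean). -/
noncomputable def zeta (L : PeriodPair) (z : ℂ) : ℂ := ∑' l : L.lattice, (1 / (z - l) + 1 / l + z / l ^ 2)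

/-- On the connected open set `V`, `p` is a branch of the elliptic logarithm, `℘ (p (x)) = x`, and `l_j` a branch of
`log (x - c_j)`, where the `c_j` are distinct. -/
structure Branches (V : Set ℂ) (L : PeriodPair) {r : ℕ} (c : Fin r → ℂ) (p : ℂ → ℂ) (l : Fin r → ℂ → ℂ) : Prop where
  isOpen : IsOpen V
  isPreconnected : IsPreconnected V
  nonempty : V.Nonempty
  injective : Function.Injective c
  analytic : AnalyticOnNhd ℂ p V
  notMem : ∀ x ∈ V, p x ∉ L.lattice
  wp : ∀ x ∈ V, L.weierstrassP (p x) = x
  analytic_l : ∀ j, AnalyticOnNhd ℂ (l j) V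
  exp_l : ∀ j, ∀ x ∈ V, Complex.exp (l j x) = x - c j

/-- the functions `p (x)`, `ζ (p (x))` and `l_j (x)` -/
noncomputable def values (L : PeriodPair) {r : ℕ} (p : ℂ → ℂ) (l : Fin r → ℂ → ℂ) : Fin 2 ⊕ Fin r → ℂ → ℂ
  | Sum.inl i, x => ![p x, zeta L (p x)] i
  | Sum.inr j, x => l j x

/-- **Theorem.** Let `L` be a lattice, `c_1, …, c_r` distinct complex numbers, `p`, `l_j` branches of the elliptic
logarithm and of `log (x - c_j)` on `V`; let `u_k`, `w` be complex polynomials, `w` without zeros on
`V`, and `ξ_1, …, ξ_g` complex numbers. There is a set `E` of complex numbers of Hausdorff dimension `0` such that: (1) for all `x ∈ V` outside `E`, all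
number fields `F` with an embedding `ι` in `ℂ`, all `d`, `A` and `ω > 0` there are `B`, `T₁` such that for all
`T ≥ T₁` and all `t ∈ F`, quotients of integers with conjugates at most `T`, with `|ι t - x| ≤ T ^ (-ω)`, the
values of these functions at `t` are not dependent; (2) for all irrational real `x ∈ V` outside `E` and all `d`,
`A` there is `B` such that the values at the convergents `t` of `x` are not dependent over `ℚ`, at the level of
the denominator, from some point on. -/
theorem result {r q g : ℕ} (V : Set ℂ) (L : PeriodPair) (c : Fin r → ℂ) (p : ℂ → ℂ) (l : Fin r → ℂ → ℂ)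
    (hB : Branches V L c p l)
    (u : Fin q → Polynomial ℂ) (w : Polynomial ℂ) (hw : ∀ t ∈ V, w.eval t ≠ 0) (ξ : Fin g → ℂ) :
    ∃ E : Set ℂ, dimH E = 0 ∧
      (∀ x ∈ V, x ∉ E → ∀ (F : Type) [Field F] [NumberField F] (ι : F →+* ℂ)
        (d A : ℕ) (ω : ℝ), 0 < ω → ∃ B T₁ : ℝ, ∀ T : ℝ, T₁ ≤ T → ∀ t : F, Size F T t →
          ‖ι t - x‖ ≤ T ^ (-ω) → ¬ Dependent (values L p l) u w ξ F ι d A B T t) ∧
      ∀ x : ℝ, Irrational x → (x : ℂ) ∈ V → (x : ℂ) ∉ E → ∀ d A : ℕ, ∃ (B : ℝ) (n₀ : ℕ), ∀ k : ℕ,
        n₀ ≤ k → ¬ Dependent (values L p l) u w ξ ℚ (algebraMap ℚ ℂ) d A B (x.convergent k).den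
          (x.convergent k) := by
  have hval : Pool.Agent.X255.RH.fW L p l = values L p l := by
    funext w x
    rcases w with i | j
    · fin_cases i
      · rfl
      · rfl
    · rfl
  have han : ∀ w, AnalyticOnNhd ℂ (values L p l w) V := by
    intro w
    rw [← hval]
    exact Pool.Agent.X255.RH.fW_an L p l hB.analytic hB.notMem hB.analytic_l w
  have hind : Pool.Agent.X255.RH.Indep V (values L p l) := by
    rw [← hval]
    exact Pool.Agent.X255.RH.fW_indep hB.isPreconnected hB.isOpen hB.nonempty L p l c hB.injective hB.analytic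
      hB.notMem hB.wp hB.analytic_l hB.exp_l
  exact Pool.Agent.X39.Near.master_indep V hB.isOpen hB.isPreconnected (values L p l) han hind u w hw ξ

end Pool.Agent.Results.MP_c9768e_nt.ApproximationsOfAllNumbers
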