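import Pool.Agent.X255.RH.Loc
import Pool.Agent.X255.RH.Wei

/-!
# Logarithms and elliptic logarithms of almost all algebraic points, jointly for all conjugates

Let `L` be a lattice, `c_1, …, c_r` distinct complex numbers, and let, on a connected open set `V`, `p` be a branch of the
inverse of `℘` (an elliptic logarithm: `℘ (p (x)) = x`) and `l_j` a branch of `log (x - c_j)`. If `g₂`, `g₃`, the `c_j` and
`x` are algebraic, then `p (x)` is the elliptic logarithm of an algebraic point and the `l_j (x)` are logarithms of
algebraic numbers; the problem asks whether these numbers, for several `x`, are algebraically independent if they satisfy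
the obvious conditions.

We prove for 100% of the integral polynomials of degree `g`, ordered by the maximum `T` of the absolute values of the
coefficients, that the numbers `p (x)`, `l_j (x)`, and also `ζ (p (x))`, at all roots `x` of the polynomial in `V` (at
distance at least `1 / (ω (T) + 1)` from the complement of `V`) satisfy no relation whose degree, and the degree of whose
coefficient field, is at most `ω (T)`, and whose coefficients are of size at most `T ^ ω (T)`, where `ω (T) → ∞`; the
coefficients may also contain arbitrary fixed complex numbers `ξ_b`, for instance the monomials in `g₂`, `g₃`, `π`, the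
periods and the quasi-periods, so that the numbers may be replaced by their values for other branches.

Proof: `Pool.Agent.X255.NP` (the norm to `ℚ` of a relation over the field generated by all roots, a nonstandard version of
the Bombieri-Pila method), Ostrowski's theorem for germs (`Pool.Agent.W253.LF`, `Pool.Agent.W924.LF`) and a complex version
of helper659's criterion for integrals on hyperelliptic curves and logarithms (`Pool.Agent.X255.HY`,
`Pool.Agent.X255.RH.Wei`), and `Pool.Agent.X255.RH` (independence of functions of different variables; almost no integral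
polynomial has close roots).
-/

set_option autoImplicit false

open Polynomial Filter NumberField
open scoped Classical PeriodPair

namespace Pool.Agent.Results.MP_c9768e_nt.LogarithmsAtConjugatePoints

/-- The Weierstrass zeta function `ζ(z) = ∑ (1/(z-l) + 1/l + z/l²)`, the sum over the lattice (the summand of `l = 0` is
`1/z`, since `1/0 = 0` in Lean). -/
noncomputable def zeta (L : PeriodPair) (z : ℂ) : ℂ := ∑' l : L.lattice, (1 / (z - l) + 1 / l + z / l ^ 2)

/-- On the connected open set `V`, `p` is a branch of the elliptic logarithm, `℘ (p (x)) = x`, and `l_j` a branch of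
`log (x - c_j)`, where the `c_j` are distinct. -/
structure Branches (V : Set ℂ) (L : PeriodPair) {r : ℕ} (c : Fin r → ℂ) (p : ℂ → ℂ) (l : Fin r → ℂ → ℂ) : Prop where
  isOpen : IsOpen V
  isPreconnected : IsPreconnected V
  nonempty : V.Nonempty
  injective : Function.Injective c
  analytic : AnalyticOnNhd ℂ p V
  notMem : ∀ x ∈ V, p x ∉ L.lattice
  wp : ∀ x ∈ V, ℘[L] (p x) = x
  analytic_l : ∀ j, AnalyticOnNhd ℂ (l j) V
  exp_l : ∀ j, ∀ x ∈ V, Complex.exp (l j x) = x - c j

/-- the numbers `p (x)`, `ζ (p (x))` and `l_j (x)` -/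
noncomputable def value (L : PeriodPair) {r : ℕ} (p : ℂ → ℂ) (l : Fin r → ℂ → ℂ) (x : ℂ) : Fin 2 ⊕ Fin r → ℂ
  | Sum.inl i => ![p x, zeta L (p x)] i
  | Sum.inr j => l j x

/-- the polynomial `a_g X ^ g + … + a_0` -/
noncomputable def poly {g : ℕ} (a : Fin (g + 1) → ℤ) : ℂ[X] := ∑ i, C (a i : ℂ) * X ^ (i : ℕ)

/-- the roots of the polynomial in the set `V` -/
noncomputable def rootsIn (V : Set ℂ) {g : ℕ} (a : Fin (g + 1) → ℤ) : Finset ℂ :=
  (poly a).roots.toFinset.filter fun z => z ∈ V

/-- The numbers `x q`, `q ∈ Q`, satisfy no relation of degree at most `k` in each of them with coefficients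
`∑ ξ b * c b`, `b < k`, where the `c b` are integers of a number field of degree at most `k`, all of whose conjugates
are of absolute value at most `T ^ k`, except the relations all of whose coefficients vanish. -/
def Unrelated {Q : Type} [Fintype Q] [DecidableEq Q] (ξ : ℕ → ℂ) (k : ℕ) (T : ℝ) (x : Q → ℂ) : Prop :=
  ∀ (F : Type) [Field F] [NumberField F], Module.finrank ℚ F ≤ k → ∀ (io : F →+* ℂ)
    (c : (Q → Fin (k + 1)) → Fin k → 𝓞 F), (∀ l b (φ : F →+* ℂ), ‖φ (c l b : F)‖ ≤ T ^ k) →
    ∑ l, (∑ b : Fin k, ξ b * io (c l b : F)) * ∏ q, x q ^ (l q : ℕ) = 0 → ∀ l, ∑ b : Fin k, ξ b * io (c l b : F) = 0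

/-- the `a` with `|a_i| ≤ T` -/
noncomputable def box (g T : ℕ) : Finset (Fin (g + 1) → ℤ) := Fintype.piFinset fun _ => Finset.Icc (-(T : ℤ)) T

/-- the points whose distance to the complement of `V` is at least `1 / (k + 1)` -/
def region (V : Set ℂ) (k : ℕ) : Set ℂ := {z | Metric.ball z (1 / ((k : ℝ) + 1)) ⊆ V}

/-- the numbers `p (x)`, `ζ (p (x))` and `l_j (x)`, `x` all roots of `a` in the set `V`, are unrelated up to
complexity `k` -/
def Free {g r : ℕ} (V : Set ℂ) (L : PeriodPair) (p : ℂ → ℂ) (l : Fin r → ℂ → ℂ) (ξ : ℕ → ℂ) (k : ℕ) (T : ℝ)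
    (a : Fin (g + 1) → ℤ) : Prop :=
  Unrelated ξ k T fun q : {z // z ∈ rootsIn V a} × (Fin 2 ⊕ Fin r) => value L p l q.1 q.2

/-- `a` is of degree `g`, with simple roots, and `Free` for the roots in `region V k` -/
def Good {g r : ℕ} (V : Set ℂ) (L : PeriodPair) (p : ℂ → ℂ) (l : Fin r → ℂ → ℂ) (ξ : ℕ → ℂ) (k : ℕ) (T : ℝ) (a : Fin (g + 1) → ℤ) : Prop :=
  a (Fin.last g) ≠ 0 ∧ (poly a).Separable ∧ Free (region V k) L p l ξ k T a

/-- `a` is of degree `g`, its roots are simple, of absolute value at most `R`, at distance at least `η` from each other,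
and the roots in `V` are at distance at least `η` from the complement of `V` -/
def Position (V : Set ℂ) (R η : ℝ) {g : ℕ} (a : Fin (g + 1) → ℤ) : Prop :=
  a (Fin.last g) ≠ 0 ∧ (poly a).Separable ∧ ∀ z, (poly a).eval z = 0 → ‖z‖ ≤ R ∧
    (∀ w, (poly a).eval w = 0 → w ≠ z → η ≤ ‖z - w‖) ∧ (z ∈ V → Metric.ball z η ⊆ V)


/-- **Theorem.** Let `g ≥ 1`, `L` a lattice, `c_1, …, c_r` distinct complex numbers, `p`, `l_j` branches of the elliptic
logarithm and of `log (x - c_j)` on `V`, and let `ξ` be a sequence of complex numbers.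
(1) There is a monotone `ω`, `ω(T) → ∞`, such that the proportion of the polynomials with `|a_i| ≤ T` which are not
`Good` with `k = ω(T)` is at most `1 / ω(T)`.
(2) For fixed `k`, `R`, `η > 0` and `ε > 0`, all but `C T ^ (g + ε)` of the polynomials with `|a_i| ≤ T` whose roots
are in the compact position `Position V R η` are `Free` for the roots in `V` (there are about `(2 T) ^ (g + 1)`
polynomials). -/
theorem result (g r : ℕ) (hg : 0 < g) (V : Set ℂ) (L : PeriodPair) (c : Fin r → ℂ) (p : ℂ → ℂ) (l : Fin r → ℂ → ℂ)
    (hB : Branches V L c p l) (ξ : ℕ → ℂ) :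
    (∃ ω : ℕ → ℕ, Tendsto ω atTop atTop ∧ Monotone ω ∧ ∀ T,
      ω T * ((box g T).filter fun a => ¬ Good V L p l ξ (ω T) T a).card ≤ (box g T).card) ∧
    ∀ (k : ℕ) (R η ε : ℝ), 0 < η → 0 < ε → ∃ C : ℝ, ∀ T : ℕ, 1 ≤ T →
      (((box g T).filter fun a => Position V R η a ∧ ¬ Free V L p l ξ k T a).card : ℝ) ≤
        C * (T : ℝ) ^ ((g : ℝ) + ε) := by
  have hpre : IsPreconnected V := hB.isPreconnected
  have hop : IsOpen V := hB.isOpen
  have hval : Pool.Agent.X255.RH.fW L p l = fun w x => value L p l x w := by
    funext w x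
    rcases w with i | j
    · fin_cases i
      · rfl
      · rfl
    · rfl
  have han : ∀ w, AnalyticOnNhd ℂ (fun x => value L p l x w) V := by
    intro w
    have h1 := Pool.Agent.X255.RH.fW_an L p l hB.analytic hB.notMem hB.analytic_l w
    rwa [hval] at h1
  have hind : Pool.Agent.X255.RH.Indep V (fun w x => value L p l x w) := by
    rw [← hval]
    exact Pool.Agent.X255.RH.fW_indep hpre hop hB.nonempty L p l c hB.injective hB.analytic hB.notMem hB.wp
      hB.analytic_l hB.exp_l
  have h1 := Pool.Agent.X255.RH.main_all (g := g) hg hpre hop (region V) (Pool.Agent.X255.RH.tame_deep V) han hind ξ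
  refine ⟨h1, fun k R η ε hη hε => ?_⟩
  have h2 := Pool.Agent.X255.RH.main_eps (g := g) hg hpre hop han hind V ξ k R η ε hη hε
  exact h2

end Pool.Agent.Results.MP_c9768e_nt.LogarithmsAtConjugatePoints
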