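import Pool.Agent.X119.MilEll
import Pool.Agent.Y916.Sl.EllT
import Pool.Agent.Y333.SL.ValcS
import Pool.Agent.Y71.SLW.WPC

/-!
# Elliptic logarithms, quasi-logarithms and logarithms of the integers of Mills-type sequences

Let `L` be a lattice with rational invariants and let `p n` be elliptic logarithms of the positive integers `n`:
`℘(p n) = n`. For every real `c > 1` and every given sequence `w` of complex numbers (for instance all the monomials in the
periods, the quasi-periods, `π`, `e`, …) the following holds for a set of numbers `θ` of Hausdorff dimension `1`, with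
`a_n = ⌊θ ^ (c ^ n)⌋`. For all `q`, `m`, `D` there is `N` such that for all distinct `k_1, …, k_m ≥ N` the `3 m` numbers
`p (a_k)`, `ζ (p (a_k))`, `log a_k`, `k = k_1, …, k_m`, do not satisfy any nonzero polynomial relation of degree at most `D`
with coefficients in the span of `w_0, …, w_{q-1}` over a number field of degree at most `D`. There is no bound for the
heights of the coefficients and of the number field.

Proof. The theorem on windows `Pool.Agent.Y916.Sl.ellW` of the library (behind `AlgebraicWindows` on this problem) shows that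
few numbers `y` of a window have values which satisfy a relation of bounded degree over the field generated by given numbers.
The given numbers may be the values at earlier terms of the sequence; the theorem on Mills-type sequences in which the
property of the new term may depend on all the earlier terms (`Pool.Agent.X119.Mil.mills_hist`) gives the result.
-/

set_option autoImplicit false

open scoped PeriodPair

namespace Pool.Agent.Results.MP_c9768e_nt.MillsSequences

/-- The Weierstrass zeta function `ζ(z) = ∑ (1/(z-l) + 1/l + z/l²)`, the sum over the lattice (the summand of `l = 0` is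
`1/z`, since `1/0 = 0` in Lean). -/
noncomputable def zeta (L : PeriodPair) (z : ℂ) : ℂ := ∑' l : L.lattice, (1 / (z - l) + 1 / l + z / l ^ 2)

/-- The three numbers `p n`, `ζ(p n)`, `log n`. -/
noncomputable def values (L : PeriodPair) (p : ℕ → ℂ) (n : ℕ) : Fin 3 → ℂ :=
  ![p n, zeta L (p n), ((Real.log n : ℝ) : ℂ)]

/-- Let `L` be a lattice with rational invariants, `℘(p n) = n` for all `n ≥ 1`, `c > 1`, `w` a sequence of complex numbers
and `U` an open set which meets `(1, ∞)`. The set of the following `θ ∈ U` has Hausdorff dimension `1`: for all `q`, `m`, `D`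
there is `N` such that for all number fields `K` of degree at most `D`, all distinct `k_1, …, k_m ≥ N` and all nonzero
polynomials `P` in `3 m` variables of total degree at most `D` with coefficients in the `K`-span of `w_0, …, w_{q-1}`, the
value of `P` at the `values` at `⌊θ ^ (c ^ k_i)⌋` is not zero. -/
theorem result (L : PeriodPair) (a b : ℚ) (ha : L.g₂ = a) (hb : L.g₃ = b) (p : ℕ → ℂ)
    (hp : ∀ n, 1 ≤ n → p n ∉ L.lattice ∧ ℘[L] (p n) = n) (c : ℝ) (hc : 1 < c) (w : ℕ → ℂ)
    (U : Set ℝ) (hU : IsOpen U) (hne : (U ∩ Set.Ioi 1).Nonempty) :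
    dimH {θ : ℝ | θ ∈ U ∧ 1 < θ ∧ ∀ q m D : ℕ, ∃ N : ℕ,
      ∀ K : IntermediateField ℚ ℂ, FiniteDimensional ℚ K → Module.finrank ℚ K ≤ D →
      ∀ k : Fin m → ℕ, Function.Injective k → (∀ i, N ≤ k i) →
      ∀ P : MvPolynomial (Fin m × Fin 3) ℂ, P ≠ 0 → P.totalDegree ≤ D →
        (∀ s, P.coeff s ∈ Submodule.span K (w '' Set.Iio q)) →
        MvPolynomial.eval (fun x => values L p ⌊θ ^ (c ^ k x.1)⌋₊ x.2) P ≠ 0} = 1 := by
  have key := Pool.Agent.X119.MilTr.mills_values (by norm_num) (Pool.Agent.X119.MilEll.vals L p)
    (Pool.Agent.X119.MilEll.winK_ell L (fun r m A d δ τ =>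
      Pool.Agent.Y916.Sl.ellW Pool.Agent.Y333.SL.t_valcS Pool.Agent.Y71.SLW.t_wpc L a b ha hb r m A d δ τ) p hp)
    c hc (fun _ => True) (Pool.Agent.X119.MilTr.int_mills c hc) w U hU hne
  rw [← key]
  congr 1
  ext θ
  constructor
  · rintro ⟨h1, h2, h3⟩
    exact ⟨h1, h2, ⟨0, fun _ _ => trivial⟩, h3⟩
  · rintro ⟨h1, h2, -, h3⟩
    exact ⟨h1, h2, h3⟩

end Pool.Agent.Results.MP_c9768e_nt.MillsSequences
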